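import Pool.Agent.Helper20.Flip.Defs

/-!
# The decision problem LONGEST as a language, and NP-hardness
-/

set_option autoImplicit false

namespace Pool.Agent.Helper20.Flip

/-- The number with binary digits `l`, least significant digit first. -/
def val : List Bool → ℕ
  | [] => 0
  | b :: l => (if b then 1 else 0) + 2 * val l

/-- Codes of rational numbers: sign (`true` for minus), binary digits of the numerator, binary
digits of the denominator. -/
abbrev RatCode := Bool × List Bool × List Bool

/-- The rational number (as a real number) with a given code. -/
noncomputable def ratVal (r : RatCode) : ℝ :=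
  (if r.1 then -1 else 1) * ((val r.2.1 : ℝ) / (val r.2.2 : ℝ))

/-- The polygonal curve with a given list of vertices. -/
noncomputable def polygon (P : List (RatCode × RatCode)) : ZMod P.length → Pt :=
  fun k => (P.map fun q => (ratVal q.1, ratVal q.2)).getD k.val (0, 0)

/-- Self-delimiting code of a word: `true` before every letter, `false` at the end. -/
def encBits (l : List Bool) : List Bool := l.flatMap (fun b => [true, b]) ++ [false]

/-- The code of a rational number as a word: sign, numerator, denominator. -/
def encRat (r : RatCode) : List Bool := r.1 :: (encBits r.2.1 ++ encBits r.2.2)

/-- The word encoding the instance `(P, k)`: for every vertex of `P` the letter `true` and the codes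
of its two coordinates, then the letter `false` and the code of `k`. Its length is `7 n + 2 d + 2`
for `n` vertices and altogether `d` binary digits. -/
def encInst (P : List (RatCode × RatCode)) (k : List Bool) : List Bool :=
  P.flatMap (fun q => true :: (encRat q.1 ++ encRat q.2)) ++ false :: encBits k

/-- The decision problem LONGEST: the words encoding a pair `(P, k)`, where `P` is a simple
polygon, given by the list of its vertices in counterclockwise order with rational coordinates in
binary, `k` is a natural number in binary, and there is a sequence of at least `k` flips that
convexifies `P`. -/
def LONGEST : Set (List Bool) :=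
  {w | ∃ (P : List (RatCode × RatCode)) (k : List Bool), w = encInst P k ∧
    (∀ q ∈ P, val q.1.2.2 ≠ 0 ∧ val q.2.2.2 ≠ 0) ∧
    IsSimple (polygon P) ∧ 0 < area2 (polygon P) ∧ Longest (polygon P) (val k)}

/-- The decision problem SHORTEST: the words encoding a pair `(P, k)`, where `P` is a simple
polygon, given by the list of its vertices in counterclockwise order with rational coordinates in
binary, `k` is a natural number in binary, and there is a sequence of at most `k` flips that
convexifies `P`. -/
def SHORTEST : Set (List Bool) :=
  {w | ∃ (P : List (RatCode × RatCode)) (k : List Bool), w = encInst P k ∧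
    (∀ q ∈ P, val q.1.2.2 ≠ 0 ∧ val q.2.2.2 ≠ 0) ∧
    IsSimple (polygon P) ∧ 0 < area2 (polygon P) ∧ Shortest (polygon P) (val k)}

open Turing Computability in
/-- Polynomial time computable functions on binary words. -/
def PTimeFun (f : List Bool → List Bool) : Prop :=
  Nonempty (TM2ComputableInPolyTime (id : List Bool → List Bool) (id : List Bool → List Bool) f)

open Turing Computability in
/-- The class NP: certificates of polynomial length with a polynomial time verifier. -/
def NPLang (L : Set (List Bool)) : Prop :=
  ∃ (R : List Bool × List Bool → Bool) (p : Polynomial ℕ),
    Nonempty (TM2ComputableInPolyTime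
      (encodingProd (encodingList Bool) (encodingList Bool)).encode encodeBool R) ∧
    ∀ w, w ∈ L ↔ ∃ y : List Bool, y.length ≤ p.eval w.length ∧ R (w, y) = true

/-- `L` is NP-hard under polynomial-time many-one reductions. -/
def NPHard (L : Set (List Bool)) : Prop :=
  ∀ L', NPLang L' → ∃ f, PTimeFun f ∧ ∀ w, w ∈ L' ↔ f w ∈ L

end Pool.Agent.Helper20.Flip
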