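import Pool.Agent.Helper96.PolyList
import Pool.Agent.Helper20.Flip.Lang

/-!
# The encoding of instances is injective and computable in polynomial time
-/

set_option autoImplicit false

namespace Pool.Agent.Helper20.Flip

open Pool.Agent.Helper96

theorem encBits_nil : encBits [] = [false] := rfl

theorem encBits_cons (b : Bool) (l : List Bool) : encBits (b :: l) = true :: b :: encBits l := rfl

theorem encBits_append_inj : ∀ {l l' x x' : List Bool}, encBits l ++ x = encBits l' ++ x' →
    l = l' ∧ x = x'
  | [], [], x, x', h => by
    simpa [encBits_nil] using h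
  | [], b :: l', x, x', h => by
    simp [encBits_nil, encBits_cons] at h
  | b :: l, [], x, x', h => by
    simp [encBits_nil, encBits_cons] at h
  | b :: l, b' :: l', x, x', h => by
    simp only [encBits_cons, List.cons_append, List.cons.injEq, true_and] at h
    obtain ⟨h1, h2⟩ := encBits_append_inj h.2
    exact ⟨by rw [h.1, h1], h2⟩

theorem encRat_append_inj {r r' : RatCode} {x x' : List Bool}
    (h : encRat r ++ x = encRat r' ++ x') : r = r' ∧ x = x' := by
  obtain ⟨s, a, b⟩ := r
  obtain ⟨s', a', b'⟩ := r'
  simp only [encRat, List.cons_append, List.cons.injEq, List.append_assoc] at h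
  obtain ⟨h1, h2⟩ := encBits_append_inj h.2
  obtain ⟨h3, h4⟩ := encBits_append_inj h2
  exact ⟨by rw [h.1, h1, h3], h4⟩

theorem encInst_inj : ∀ {P P' : List (RatCode × RatCode)} {k k' : List Bool},
    encInst P k = encInst P' k' → P = P' ∧ k = k'
  | [], [], k, k', h => by
    simp only [encInst, List.flatMap_nil, List.nil_append, List.cons.injEq, true_and] at h
    have := encBits_append_inj (x := []) (x' := []) (by simpa using h)
    exact ⟨rfl, this.1⟩
  | [], q :: P', k, k', h => by
    simp [encInst] at h
  | q :: P, [], k, k', h => by
    simp [encInst] at h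
  | q :: P, q' :: P', k, k', h => by
    simp only [encInst, List.flatMap_cons, List.cons_append, List.cons.injEq, List.append_assoc,
      true_and] at h
    obtain ⟨h1, h2⟩ := encRat_append_inj h
    obtain ⟨h3, h4⟩ := encRat_append_inj h2
    obtain ⟨h5, h6⟩ := encInst_inj (P := P) (P' := P') (k := k) (k' := k') h4
    exact ⟨by rw [Prod.ext h1 h3, h5], h6⟩

variable {α : Type} [Enc α]

theorem Poly.encBits' {f : α → List Bool} (hf : Poly f) : Poly (fun a => encBits (f a)) := by
  unfold encBits
  fun_prop

theorem Poly.encRat' {f : α → RatCode} (hf : Poly f) : Poly (fun a => encRat (f a)) := by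
  unfold encRat
  exact Poly.cons (by fun_prop) (Poly.append (Poly.encBits' (by fun_prop)) (Poly.encBits' (by fun_prop)))

theorem Poly.encInst' {f : α → List (RatCode × RatCode)} {g : α → List Bool} (hf : Poly f)
    (hg : Poly g) : Poly (fun a => encInst (f a) (g a)) := by
  unfold encInst
  refine Poly.append (Poly.flatMap hf ?_) (Poly.cons (by fun_prop) (Poly.encBits' hg))
  exact Poly.cons (by fun_prop) (Poly.append (Poly.encRat' (by fun_prop)) (Poly.encRat' (by fun_prop)))

end Pool.Agent.Helper20.Flip
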