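import Pool.Agent.Helper20.Flip.Chain

/-!
# The flip of the polygon of a chain is the polygon of the flipped chain
-/

set_option autoImplicit false

namespace Pool.Agent.Helper20.Flip

theorem vec_append' (c d : List Edge) : vec (c ++ d) = vec c + vec d := by
  simp [vec]

theorem vec_map_refl (s : ℝ) (P : List Edge) :
    vec (P.map (refl s)) = ((vec P).1 * Real.cos (2 * s) + (vec P).2 * Real.sin (2 * s),
      (vec P).1 * Real.sin (2 * s) - (vec P).2 * Real.cos (2 * s)) := by
  induction P with
  | nil => simp [vec]
  | cons e P ih =>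
    have h1 : vec ((e :: P).map (refl s)) = vec [refl s e] + vec (P.map (refl s)) := by
      rw [← vec_append']; rfl
    have h2 : vec (e :: P) = vec [e] + vec P := by
      rw [← vec_append']; rfl
    rw [h1, h2, ih]
    ext
    · simp [vec, refl, Real.cos_sub]
      ring
    · simp [vec, refl, Real.sin_sub]
      ring

theorem vecFstPos3 {B : List Edge} (hB : B ≠ []) (h : ∀ e ∈ B, 0 < e.1 ∧ |e.2| ≤ 1 / 100) :
    0 < (vec B).1 := by
  have key : ∀ B : List Edge, (∀ e ∈ B, 0 < e.1 ∧ |e.2| ≤ 1 / 100) →
      0 ≤ (vec B).1 ∧ (B ≠ [] → 0 < (vec B).1) := by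
    intro B
    induction B with
    | nil => intro _; simp [vec]
    | cons e B ih =>
      intro h
      have h1 := ih (fun x hx => h x (List.mem_cons_of_mem _ hx))
      have h2 := h e List.mem_cons_self
      have h3 : vec (e :: B) = vec [e] + vec B := by
        rw [← vec_append']; rfl
      have h4 : 0 < (vec [e]).1 := by
        have : 0 < Real.cos e.2 := by
          apply Real.cos_pos_of_mem_Ioo
          have := abs_le.mp h2.2
          have := Real.pi_gt_three
          constructor <;> linarith
        simp only [vec, List.map_cons, List.map_nil, List.sum_cons, List.sum_nil, add_zero]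
        exact mul_pos h2.1 this
      rw [h3]
      constructor
      · simp only [Prod.fst_add]; linarith [h1.1]
      · intro _; simp only [Prod.fst_add]; linarith [h1.1]
  exact (key B h).2 hB

theorem vec_polar {B : List Edge} (hB : B ≠ []) (h : ∀ e ∈ B, 0 < e.1 ∧ |e.2| ≤ 1 / 100) :
    ∃ r : ℝ, 0 < r ∧ vec B = (r * Real.cos (dir B), r * Real.sin (dir B)) := by
  have hx := vecFstPos3 hB h
  set x := (vec B).1 with hxd
  set y := (vec B).2 with hyd
  have h1 : 0 < Real.sqrt (1 + (y / x) ^ 2) := Real.sqrt_pos.mpr (by positivity)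
  refine ⟨x * Real.sqrt (1 + (y / x) ^ 2), by positivity, ?_⟩
  ext
  · rw [dir, ← hxd, ← hyd, Real.cos_arctan]
    field_simp
  · rw [dir, ← hxd, ← hyd, Real.sin_arctan]
    field_simp

theorem vec_flipBlock {B : List Edge} (hB : B ≠ []) (h : ∀ e ∈ B, 0 < e.1 ∧ |e.2| ≤ 1 / 100) :
    vec (flipBlock B) = vec B := by
  obtain ⟨r, hr, he⟩ := vec_polar hB h
  rw [flipBlock, vec_map_refl, he]
  ext
  · have : Real.cos (dir B) = Real.cos (2 * dir B - dir B) := by congr 1; ring
    conv_rhs => rw [this, Real.cos_sub]
    simp only
    ring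
  · have : Real.sin (dir B) = Real.sin (2 * dir B - dir B) := by congr 1; ring
    conv_rhs => rw [this, Real.sin_sub]
    simp only
    ring

theorem mirror_vec {B : List Edge} (hB : B ≠ []) (h : ∀ e ∈ B, 0 < e.1 ∧ |e.2| ≤ 1 / 100)
    (A : Pt) (P : List Edge) :
    mirror A (A + vec B) (A + vec P) = A + vec (P.map (refl (dir B))) := by
  obtain ⟨r, hr, he⟩ := vec_polar hB h
  rw [vec_map_refl, he]
  set s := dir B
  set a := (vec P).1 with ha
  set b := (vec P).2 with hb
  have hP : vec P = (a, b) := rfl
  rw [hP]
  have h1 : Real.cos s ^ 2 + Real.sin s ^ 2 = 1 := by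
    rw [add_comm]; exact Real.sin_sq_add_cos_sq s
  have h2 : (a * (r * Real.cos s) + b * (r * Real.sin s)) /
      ((r * Real.cos s) ^ 2 + (r * Real.sin s) ^ 2) = (a * Real.cos s + b * Real.sin s) / r := by
    have : (r * Real.cos s) ^ 2 + (r * Real.sin s) ^ 2 = r ^ 2 := by
      rw [mul_pow, mul_pow, ← mul_add, h1, mul_one]
    rw [this]
    field_simp
  ext
  · simp only [mirror, Prod.fst_add, Prod.snd_add, add_sub_cancel_left]
    rw [h2, Real.cos_two_mul, Real.sin_two_mul]
    field_simp
    ring
  · simp only [mirror, Prod.fst_add, Prod.snd_add, add_sub_cancel_left]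
    rw [h2, Real.cos_two_mul, Real.sin_two_mul]
    field_simp
    have h3 : Real.cos s ^ 2 = 1 - Real.sin s ^ 2 := by linarith
    ring_nf
    rw [h3]
    ring

theorem flip_polyOf {N : ℕ} {X B Y : List Edge} (h : Ok N (X ++ B ++ Y)) (hB : 2 ≤ B.length) :
    flip (polyOf N (X ++ B ++ Y)) (X.length : ZMod (N + 2)) B.length =
      polyOf N (X ++ flipBlock B ++ Y) := by
  obtain ⟨hN, hN1, hall⟩ := h
  have hlen : X.length + B.length + Y.length = N := by
    simpa [List.length_append, add_assoc] using hN
  have hBne : B ≠ [] := by
    rintro rfl; simp at hB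
  have hBs : ∀ e ∈ B, 0 < e.1 ∧ |e.2| ≤ 1 / 100 := by
    intro e he
    have := hall e (by simp [he])
    exact ⟨this.1, this.2.2⟩
  have hval : ∀ k : ℕ, k ≤ N → ((k : ZMod (N + 2))).val = k := by
    intro k hk
    exact ZMod.val_cast_of_lt (by omega)
  have hfl : (flipBlock B).length = B.length := by simp [flipBlock]
  -- the vertices
  have hvtx : ∀ k : ℕ, k ≤ N → ∀ c : List Edge, polyOf N c (k : ZMod (N + 2)) = vec (c.take k) := by
    intro k hk c
    unfold polyOf
    rw [hval k hk, if_pos hk]
  have htake : ∀ (C : List Edge) (t : ℕ), t ≤ C.length →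
      (X ++ C ++ Y).take (X.length + t) = X ++ C.take t := by
    intro C t ht
    rw [List.append_assoc, List.take_append, List.take_of_length_le (by omega)]
    congr 1
    rw [Nat.add_sub_cancel_left, List.take_append, Nat.sub_eq_zero_of_le ht]
    simp
  have h0 : polyOf N (X ++ B ++ Y) (X.length : ZMod (N + 2)) = vec X := by
    rw [hvtx _ (by omega)]
    have := htake B 0 (by omega)
    simp only [add_zero, List.take_zero, List.append_nil] at this
    rw [this]
  have hm : polyOf N (X ++ B ++ Y) ((X.length : ZMod (N + 2)) + (B.length : ZMod (N + 2))) =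
      vec X + vec B := by
    rw [← Nat.cast_add, hvtx _ (by omega), htake B _ le_rfl, List.take_length, vec_append']
  funext k
  unfold flip
  split_ifs with hk
  · obtain ⟨t, ht0, htm, rfl⟩ := hk
    rw [h0, hm, ← Nat.cast_add, hvtx _ (by omega), hvtx _ (by omega), htake B t htm.le,
      htake (flipBlock B) t (by omega), vec_append', vec_append', mirror_vec hBne hBs]
    rw [flipBlock, List.map_take]
  · -- outside the block
    unfold polyOf
    split_ifs with hkN
    · -- k.val ≤ N
      rcases le_or_gt k.val X.length with hc | hc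
      · rw [List.append_assoc, List.append_assoc, List.take_append_of_le_length hc,
          List.take_append_of_le_length hc]
      · have hge : X.length + B.length ≤ k.val := by
          by_contra hlt
          push Not at hlt
          apply hk
          refine ⟨k.val - X.length, by omega, by omega, ?_⟩
          rw [← Nat.cast_add, Nat.add_sub_cancel' hc.le]
          simp
        obtain ⟨t, ht⟩ := Nat.exists_eq_add_of_le hge
        have hh : ∀ C : List Edge, C.length = B.length →
            (X ++ C ++ Y).take k.val = X ++ C ++ Y.take t := by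
          intro C hC
          rw [List.take_append, List.take_of_length_le (by simp; omega)]
          congr 2
          simp
          omega
        rw [hh B rfl, hh _ hfl, vec_append', vec_append', vec_append' (X ++ flipBlock B),
          vec_append' X, vec_flipBlock hBne hBs]
    · rfl

end Pool.Agent.Helper20.Flip
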