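import Pool.Agent.Helper20.Flip.Chain

/-!
# The polygons of the reduction
-/

set_option autoImplicit false

namespace Pool.Agent.Helper20.Flip

/-- The edge with a given vector. -/
noncomputable def toEdge (v : Pt) : Edge := (Real.sqrt (v.1 ^ 2 + v.2 ^ 2), Real.arctan (v.2 / v.1))

/-- Data of the reduction: an instance `a 1, …, a n`, `T` of SUBSET SUM, the exponents `h`, `g`
(`η = 2 ^ (-h)` is the unit of the small velocity differences, `τ = 2 ^ (-g)` the scale of the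
angles) and a bound `s` for the number of bits. -/
structure Par where
  n : ℕ
  a : ℕ → ℕ
  T : ℕ
  s : ℕ
  h : ℕ
  g : ℕ
  ha : ∀ j, 0 < a j
  ha' : ∀ j, n < j → a j = 1
  hs : ∑ j ∈ Finset.Icc 1 n, a j < 2 ^ s
  hT : T < 2 ^ s
  hh : h = 2 * s + 3 * n + 60
  hg : g = 2 * h + 3 * n + 60

namespace Par

variable (P : Par)

noncomputable def η : ℝ := 1 / 2 ^ P.h
noncomputable def τ : ℝ := 1 / 2 ^ P.g
/-- nominal velocity of the wall `j` -/
noncomputable def R (j : ℕ) : ℝ := 2 * 4 ^ j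
/-- nominal length of the tiny edge `j` -/
noncomputable def ε (j : ℕ) : ℝ := 4 * P.η * P.a j / 4 ^ j
/-- number of edges -/
def N : ℕ := 2 * P.n + 7

/-- the vectors of the edges number `j`, `1 ≤ j ≤ n + 2` -/
noncomputable def pair (j : ℕ) : List Pt :=
  [(1, P.τ * (if j = P.n + 2 then P.η / 16 else R j)), (P.ε j, P.ε j * (P.τ * (R j / 2)))]

/-- the vectors of the edges of the initial chain -/
noncomputable def vecs : List Pt :=
  (1, P.τ * (3 * P.η * P.T)) :: (P.η ^ 3, P.η ^ 3 * (P.τ * (1 / 2))) :: (1, P.τ * R 0) ::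
    (List.range (P.n + 2)).flatMap fun i => P.pair (i + 1)

/-- the initial chain -/
noncomputable def chain0 : List Edge := P.vecs.map toEdge

/-- the vertices of the polygon -/
noncomputable def vtx (k : ℕ) : Pt := if k ≤ P.N then (P.vecs.take k).sum else (0, 4 * ((P.N : ℝ) + 1))

/-- the subset sum selected by `f` -/
def ssum (f : ℕ → Bool) : ℕ := ∑ j ∈ Finset.Icc 1 P.n, if f j then P.a j else 0

/-- the states at the end of the first phase (the pulse has arrived at the wall `0`) -/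
def AtZero (f : ℕ → Bool) (c : List Edge) : Prop :=
  ∃ (lz lp lw α p β : ℝ) (rest : List Edge),
    c = (lz, P.τ * α) :: (lp, P.τ * p) :: (lw, P.τ * β) :: rest ∧ c.length = P.N ∧
    (1 / 2 ≤ lz ∧ lz ≤ 2) ∧ (0 < lp ∧ lp ≤ 2 * P.η ^ 3) ∧ (1 / 2 ≤ lw ∧ lw ≤ 2) ∧
    |α - 3 * P.η * P.T| ≤ P.η / 64 ∧ |p - 1 / 2| ≤ 1 / 64 ∧
    |β - (3 * P.η * P.ssum f + P.η / 16)| ≤ P.η / 64 ∧
    Sorted rest ∧ ∀ e ∈ rest, 0 < e.1 ∧ e.1 ≤ 2 ∧ P.τ * (3 / 2) ≤ e.2 ∧ e.2 ≤ 1 / 100

end Par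

end Pool.Agent.Helper20.Flip
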