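import Pool.Agent.Helper4.Flip.Geo1
import Pool.Agent.Helper98.Flip.Geo2
import Pool.Agent.Helper20.Flip.Geo3
import Pool.Agent.Helper65.Flip.Scale
import Pool.Agent.Helper4.Flip.BStep
import Pool.Agent.Helper4.Flip.BNo
import Pool.Agent.Helper4.Flip.BYes
import Pool.Agent.Helper53.Flip.SubSum
import Pool.Agent.Helper44.Flip.Red
import Pool.Agent.Helper20.Flip.Macro
import Pool.Agent.Helper69.TM.Equiv
import Pool.Agent.Helper20.Flip.EncInj

/-!
# The assembly
-/

set_option autoImplicit false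

namespace Pool.Agent.Helper20.Flip

theorem cseq_flipSeq {N m : ℕ} {c c' : List Edge} (h : CSeq N m c c') (hc : Ok N c) :
    FlipSeq m (polyOf N c) (polyOf N c') ∧ Ok N c' := by
  induction h with
  | refl c => exact ⟨FlipSeq.refl _, hc⟩
  | step hs hok _ ih =>
    obtain ⟨X, B, Y, rfl, hb, rfl⟩ := hs
    obtain ⟨ih1, ih2⟩ := ih hok
    refine ⟨FlipSeq.step (X.length : ZMod (N + 2)) B.length (isPocket_of_hullBlock hc hb) ?_ ?_, ih2⟩
    · rw [flip_polyOf hc hb.1]
      exact poly_simple hok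
    · rw [flip_polyOf hc hb.1]
      exact ih1

theorem rank_bound {N : ℕ} {G : ℕ → List Edge → Prop} (hG : ∀ r c, G r c → Ok N c)
    (hs : ∀ r c c', G r c → CStep c c' → ∃ r' < r, G r' c') {m : ℕ} {V V' : ZMod (N + 2) → Pt}
    (h : FlipSeq m V V') : ∀ r c, G r c → V = polyOf N c → m ≤ r := by
  induction h with
  | refl V => intro r c _ _; exact Nat.zero_le _
  | step i l hp _ _ ih =>
    rintro r c hr rfl
    obtain ⟨X, B, Y, rfl, hb, hi, hl⟩ := hullBlock_of_isPocket (hG r c hr) hp
    subst hl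
    subst hi
    obtain ⟨r', hr', hG'⟩ := hs r _ _ hr ⟨X, B, Y, rfl, hb, rfl⟩
    have := ih r' _ hG' (flip_polyOf (hG _ _ hr) hb.1)
    omega

theorem CSeq.trans {N m m' : ℕ} {c c' c'' : List Edge} (h : CSeq N m c c') (h' : CSeq N m' c' c'') :
    CSeq N (m + m') c c'' := by
  induction h with
  | refl c => rw [Nat.zero_add]; exact h'
  | @step m c c₁ c₂ hs hok _ ih =>
    rw [show m + 1 + m' = (m + m') + 1 by omega]
    exact CSeq.step hs hok (ih h')

theorem lp_le {P : Par} {lp : ℝ} (h : lp ≤ 2 * P.η ^ 3) : lp ≤ 1 / 100 ∧ lp ≤ P.η * (1 / 2 ^ 99) ∧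
    lp * (2 ^ P.h) ^ 2 ≤ 2 * P.η := by
  have hη := P.η_pos
  have hη60 := P.η_le'
  have hη3 : P.η ^ 3 ≤ P.η * (1 / 2 ^ 100) := by
    have : P.η ^ 3 = P.η * (P.η * P.η) := by ring
    rw [this]
    refine mul_le_mul_of_nonneg_left ?_ hη.le
    calc P.η * P.η ≤ (1 / 2 ^ 60) * (1 / 2 ^ 60) := mul_le_mul hη60 hη60 hη.le (by positivity)
      _ ≤ 1 / 2 ^ 100 := by norm_num
  norm_num at hη3 hη60 ⊢
  refine ⟨by linarith, by linarith, ?_⟩
  have h3 := P.η_mul
  have h4 : P.η ^ 3 * (2 ^ P.h) ^ 2 = P.η := by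
    calc P.η ^ 3 * (2 ^ P.h) ^ 2 = P.η * (P.η * 2 ^ P.h) ^ 2 := by ring
      _ = P.η := by rw [h3]; ring
  calc lp * (2 ^ P.h) ^ 2 ≤ 2 * P.η ^ 3 * (2 ^ P.h) ^ 2 :=
        mul_le_mul_of_nonneg_right h (by positivity)
    _ = 2 * P.η := by rw [mul_assoc, h4]

theorem bstate_of {P : Par} {lz lp lw : ℝ} {a b c : Edge} {rest : List Edge}
    (hlen : (a :: b :: c :: rest).length = P.N) (hlz : 1 / 2 ≤ lz ∧ lz ≤ 2)
    (hlp : 0 < lp ∧ lp ≤ 2 * P.η ^ 3) (hlw : 1 / 2 ≤ lw ∧ lw ≤ 2) (hsort : Sorted rest)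
    (hrest : ∀ e ∈ rest, 0 < e.1 ∧ e.1 ≤ 2 ∧ P.τ * (3 / 2) ≤ e.2 ∧ e.2 ≤ 1 / 100) :
    BState P.N P.τ lz lp lw rest where
  hN := by simpa using hlen
  hτ := P.τ_pos
  hτ' := P.τ_le
  hlz := hlz
  hlw := hlw
  hlp := ⟨hlp.1, (lp_le hlp.2).1⟩
  hrest := hsort
  hrest' := hrest

theorem longest_iff (P : Par) :
    Longest (polyOf P.N P.chain0) (2 ^ P.h) ↔ ∃ f, P.ssum f = P.T := by
  have hη := P.η_pos
  have hη60 := P.η_le'
  have hτ := P.τ_pos
  have hT' : P.η * P.T ≤ 1 / 2 ^ 60 := by
    have h1 := P.ηT_le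
    have h2 := P.δ_le
    linarith
  have hS' : ∀ f, P.η * P.ssum f ≤ 1 / 2 ^ 60 := by
    intro f
    have h0 : P.ssum f ≤ 2 ^ P.s := by
      refine le_trans ?_ P.hs.le
      unfold Par.ssum
      refine Finset.sum_le_sum fun j _ => ?_
      split_ifs <;> simp
    have h1 : (P.ssum f : ℝ) ≤ 2 ^ P.s := by exact_mod_cast h0
    have h2 : P.η * P.ssum f ≤ P.δ := mul_le_mul_of_nonneg_left h1 hη.le
    exact h2.trans P.δ_le
  constructor
  · rintro ⟨m, hm, V', hseq, -⟩
    by_contra hno
    push Not at hno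
    -- the bounce phase
    set Z : ℕ → List Edge → Prop := fun r c => ∃ G : ℕ → List Edge → Prop, G r c ∧
      (∀ r c, G r c → Ok P.N c) ∧ ∀ r c c', G r c → CStep c c' → ∃ r' < r, G r' c' with hZ
    have hz0 : ∀ f c, P.AtZero f c → Z (2 ^ (P.h - 1) + 3) c := by
      intro f c hf
      obtain ⟨lz, lp, lw, α, p, β, rest, rfl, hlen, hlz, hlp, hlw, hα, hp, hβ, hsort, hrest⟩ := hf
      have hB := bstate_of hlen hlz hlp hlw hsort hrest
      have hne : P.ssum f ≠ P.T := hno f
      have hαβ : 2 * P.η ≤ |β - α| := by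
        have h1 := abs_le.1 hα
        have h2 := abs_le.1 hβ
        rcases lt_or_gt_of_ne hne with hlt | hgt
        · have h3 : (P.ssum f : ℝ) + 1 ≤ P.T := by exact_mod_cast hlt
          have h4 : P.η * (P.ssum f + 1) ≤ P.η * P.T := mul_le_mul_of_nonneg_left h3 hη.le
          rw [abs_sub_comm]
          refine le_trans ?_ (le_abs_self _)
          nlinarith
        · have h3 : (P.T : ℝ) + 1 ≤ P.ssum f := by exact_mod_cast hgt
          have h4 : P.η * (P.T + 1) ≤ P.η * P.ssum f := mul_le_mul_of_nonneg_left h3 hη.le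
          refine le_trans ?_ (le_abs_self _)
          nlinarith
      refine bounce_no hB (u := 2 * P.η) (by positivity) ?_ ?_ ?_ ?_ hαβ ?_
      · have := (lp_le hlp.2).2.1
        norm_num at this
        nlinarith
      · have h1 := abs_le.1 hα
        have h0 : 0 ≤ P.η * P.T := by positivity
        rw [abs_le]
        constructor <;> norm_num at hT' hη60 ⊢ <;> nlinarith
      · have h1 := abs_le.1 hβ
        have h0 : 0 ≤ P.η * P.ssum f := by positivity
        have h3 := hS' f
        rw [abs_le]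
        constructor <;> norm_num at h3 hη60 ⊢ <;> nlinarith
      · refine hp.trans (by norm_num)
      · have h1 : (2 : ℝ) ^ P.h = 2 * 2 ^ (P.h - 1) := by
          rw [← pow_succ']
          congr 1
          have := P.hh
          omega
        have h2 : 1 / (2 * P.η) = 2 ^ (P.h - 1) := by
          unfold Par.η
          rw [h1]
          field_simp
        rw [h2]
        push_cast
        linarith
    have hz1 : ∀ r c, Z r c → Ok P.N c := by
      rintro r c ⟨G, hg, h1, -⟩
      exact h1 r c hg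
    have hz2 : ∀ r c c', Z r c → CStep c c' → ∃ r' < r, Z r' c' := by
      rintro r c c' ⟨G, hg, h1, h2⟩ hs
      obtain ⟨r', hr', hg'⟩ := h2 r c c' hg hs
      exact ⟨r', hr', G, hg', h1, h2⟩
    obtain ⟨G, hG0, hG1, hG2⟩ := macro_no P hz0 hz1 hz2
    have := rank_bound hG1 hG2 hseq _ _ hG0 rfl
    have h1 : 2 ^ P.h = 2 * 2 ^ (P.h - 1) := by
      rw [← pow_succ']
      congr 1
      have := P.hh
      omega
    have h2 : 2 * P.n + 7 < 2 ^ (P.h - 1) := by
      have h3 : P.n + 10 ≤ P.h - 1 := by have := P.hh; omega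
      have h4 : 2 ^ (P.n + 10) ≤ 2 ^ (P.h - 1) := Nat.pow_le_pow_right (by norm_num) h3
      have h5 : P.n < 2 ^ P.n := Nat.lt_two_pow_self
      rw [pow_add] at h4
      norm_num at h4
      omega
    omega
  · rintro ⟨f, hf⟩
    obtain ⟨m, c, hmc, hAt⟩ := macro_yes P f
    obtain ⟨lz, lp, lw, α, p, β, rest, rfl, hlen, hlz, hlp, hlw, hα, hp, hβ, hsort, hrest⟩ := hAt
    have hB := bstate_of hlen hlz hlp hlw hsort hrest
    rw [hf] at hβ
    have h1 := abs_le.1 hα
    have h2 := abs_le.1 hβ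
    have h0 : 0 ≤ P.η * P.T := by positivity
    obtain ⟨m', c', hm', hseq', hsort'⟩ := bounce_yes hB (α := α) (β := β) (p := p)
      (u := P.η / 8) (k := 2 ^ P.h) (by
        rw [abs_le]
        constructor <;> norm_num at hT' hη60 ⊢ <;> nlinarith) (by
        rw [abs_le]
        constructor <;> norm_num at hT' hη60 ⊢ <;> nlinarith) (hp.trans (by norm_num)) (by linarith)
      (by linarith) (by
        push_cast
        have := P.η_mul
        linarith) (by
        push_cast
        have h5 := (lp_le hlp.2).2.2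
        norm_num at hη60
        linarith)
    have hfin := cseq_flipSeq (hmc.trans hseq') (chain0_ok P)
    exact ⟨m + m', by omega, _, hfin.1, poly_convex hfin.2 hsort'⟩

/-! ### the vertices -/

theorem vec_toEdge {v : Pt} (hv : 0 < v.1) :
    (toEdge v).1 * Real.cos (toEdge v).2 = v.1 ∧ (toEdge v).1 * Real.sin (toEdge v).2 = v.2 := by
  have h1 : Real.sqrt (v.1 ^ 2 + v.2 ^ 2) = v.1 * Real.sqrt (1 + (v.2 / v.1) ^ 2) := by
    rw [← Real.sqrt_sq hv.le, ← Real.sqrt_mul (by positivity), Real.sqrt_sq hv.le]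
    congr 1
    field_simp
  have h2 : 0 < Real.sqrt (1 + (v.2 / v.1) ^ 2) := Real.sqrt_pos.2 (by positivity)
  unfold toEdge
  simp only
  rw [h1, Real.cos_arctan, Real.sin_arctan]
  constructor
  · field_simp
  · field_simp

theorem vec_map_toEdge {l : List Pt} (hl : ∀ v ∈ l, 0 < v.1) : vec (l.map toEdge) = l.sum := by
  induction l with
  | nil => simp [vec]
  | cons v l ih =>
    have h1 := ih fun w hw => hl w (List.mem_cons_of_mem _ hw)
    obtain ⟨h2, h3⟩ := vec_toEdge (hl v (List.mem_cons_self ..))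
    unfold vec at h1 ⊢
    rw [List.map_cons, List.sum_cons, ← h1]
    simp only [List.map_cons, List.sum_cons, h2, h3]
    rfl

theorem vecs_pos (P : Par) : ∀ v ∈ P.vecs, 0 < v.1 := by
  intro v hv
  have hη := P.η_pos
  unfold Par.vecs Par.pair at hv
  simp only [List.mem_cons, List.mem_flatMap, List.not_mem_nil, or_false] at hv
  rcases hv with rfl | rfl | rfl | ⟨i, -, rfl | rfl⟩
  · exact one_pos
  · simp only; positivity
  · exact one_pos
  · exact one_pos
  · exact P.εpos _

theorem vtx_eq (P : Par) {k : ℕ} (hk : k < P.N + 2) :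
    P.vtx k = polyOf P.N P.chain0 (k : ZMod (P.N + 2)) := by
  unfold Par.vtx polyOf
  have : ((k : ZMod (P.N + 2))).val = k := by
    rw [ZMod.val_natCast, Nat.mod_eq_of_lt hk]
  rw [this]
  split_ifs
  · unfold Par.chain0
    rw [← List.map_take, vec_map_toEdge]
    intro v hv
    exact vecs_pos P v (List.mem_of_mem_take hv)
  · rfl

theorem transport {m N : ℕ} (hm : m = N + 2) {V : ZMod m → Pt} {c : List Edge} {r : ℝ} (hr : 0 < r)
    (hc : Ok N c) (hV : ∀ k, k < N + 2 → V (k : ZMod m) = r • polyOf N c (k : ZMod (N + 2))) :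
    IsSimple V ∧ 0 < area2 V ∧ ∀ K, Longest V K ↔ Longest (polyOf N c) K := by
  subst hm
  have h1 : V = fun i => r • polyOf N c i := by
    funext i
    have h2 := hV i.val (ZMod.val_lt i)
    rwa [ZMod.natCast_zmod_val] at h2
  rw [h1]
  refine ⟨(isSimple_smul hr).2 (poly_simple hc), ?_, fun K => longest_smul hr K⟩
  rw [area2_smul]
  have := poly_area hc
  positivity

/-! ### subset sums -/

theorem sum_iff (l : List (List Bool)) : ∀ t : ℕ,
    (∃ s : List (List Bool), s.Sublist l ∧ (s.map val).sum = t) ↔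
      ∃ f : ℕ → Bool, ∑ i ∈ Finset.range l.length, (if f i then val (l.getD i []) else 0) = t := by
  induction l with
  | nil =>
    intro t
    constructor
    · rintro ⟨s, hs, rfl⟩
      rw [List.sublist_nil.1 hs]
      exact ⟨fun _ => false, by simp⟩
    · rintro ⟨f, rfl⟩
      exact ⟨[], List.Sublist.refl _, by simp⟩
  | cons a l ih =>
    intro t
    constructor
    · rintro ⟨s, hs, rfl⟩
      cases hs with
      | cons _ hs =>
        obtain ⟨f, hf⟩ := (ih _).1 ⟨s, hs, rfl⟩
        refine ⟨fun i => if i = 0 then false else f (i - 1), ?_⟩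
        rw [List.length_cons, Finset.sum_range_succ']
        simpa using hf
      | @cons_cons s _ _ hs =>
        obtain ⟨f, hf⟩ := (ih _).1 ⟨s, hs, rfl⟩
        refine ⟨fun i => if i = 0 then true else f (i - 1), ?_⟩
        rw [List.length_cons, Finset.sum_range_succ']
        simp only [List.map_cons, List.sum_cons]
        rw [← hf]
        simp [add_comm]
    · rintro ⟨f, rfl⟩
      obtain ⟨s, hs, hs'⟩ := (ih (∑ i ∈ Finset.range l.length,
        (if f (i + 1) then val (l.getD i []) else 0))).2 ⟨fun i => f (i + 1), rfl⟩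
      rw [List.length_cons, Finset.sum_range_succ']
      by_cases h0 : f 0 = true
      · refine ⟨a :: s, hs.cons_cons a, ?_⟩
        simp only [List.map_cons, List.sum_cons, hs']
        simp [h0, add_comm]
      · refine ⟨s, hs.cons a, ?_⟩
        rw [hs']
        simp [h0]

open Pool.Agent.Helper96 in
theorem longest_hard : NPHard LONGEST := by
  intro L' hL'
  have hL : InNP L' := hL'
  obtain ⟨f, hf, hpos, hcorr⟩ := subsetSum_hard hL
  obtain ⟨F, hF, hFspec⟩ := exists_red
  refine ⟨fun w => encInst (F (f w)).1 (F (f w)).2, ?_, ?_⟩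
  · refine (Pool.Agent.Helper69.polyTimeFun_iff _).2 ?_
    exact Poly.encInst' (Poly.fst (hF.comp hf)) (Poly.snd (hF.comp hf))
  · intro w
    rw [hcorr w, sum_iff]
    obtain ⟨P, S, hn, ha, hT, hlen, hden, hval, hvtx⟩ := hFspec (f w) (hpos w)
    have htr := transport (V := polygon (F (f w)).1) (c := P.chain0) (r := (2 : ℝ) ^ S) hlen
      (by positivity) (chain0_ok P) (by
        intro k hk
        unfold polygon
        have : ((k : ZMod (F (f w)).1.length)).val = k := by
          rw [ZMod.val_natCast, Nat.mod_eq_of_lt (by rw [hlen]; exact hk)]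
        rw [this, hvtx k hk, vtx_eq P hk])
    obtain ⟨ht1, ht2, ht3⟩ := htr
    have h1 : (∃ g : ℕ → Bool, ∑ i ∈ Finset.range (f w).1.length,
        (if g i then val ((f w).1.getD i []) else 0) = val (f w).2) ↔ ∃ g, P.ssum g = P.T := by
      have h2 : ∀ g : ℕ → Bool, P.ssum g = ∑ i ∈ Finset.range (f w).1.length,
          (if g (i + 1) then val ((f w).1.getD i []) else 0) := by
        intro g
        unfold Par.ssum
        have h3 := Finset.sum_Ico_add' (fun j => if g j = true then
          val ((f w).1.getD (j - 1) []) else 0) 0 P.n 1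
        simp only [Nat.add_sub_cancel] at h3
        rw [← hn, Finset.range_eq_Ico, h3]
        refine Finset.sum_congr ?_ ?_
        · ext j
          simp only [Finset.mem_Icc, Finset.mem_Ico]
          omega
        · intro j hj
          have := Finset.mem_Ico.1 hj
          rw [ha j (by omega) (by omega)]
      rw [hT]
      constructor
      · rintro ⟨g, hg⟩
        refine ⟨fun j => g (j - 1), ?_⟩
        rw [h2]
        simpa using hg
      · rintro ⟨g, hg⟩
        exact ⟨fun i => g (i + 1), by rw [← hg, h2]⟩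
    rw [h1, ← longest_iff P, ← ht3, ← hval]
    constructor
    · intro h
      exact ⟨(F (f w)).1, (F (f w)).2, rfl, hden, ht1, ht2, h⟩
    · rintro ⟨Q, k, he, -, -, -, h⟩
      obtain ⟨h2, h3⟩ := encInst_inj he
      rw [h2, h3]
      exact h

end Pool.Agent.Helper20.Flip
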