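import Pool.Agent.Helper20.Flip.Chain

/-!
# The bounce phase: definitions
-/

set_option autoImplicit false

namespace Pool.Agent.Helper20.Flip

/-- the hypotheses common to the bounce modules -/
structure BState (N : ℕ) (τ lz lp lw : ℝ) (rest : List Edge) : Prop where
  hN : rest.length + 3 = N
  hτ : 0 < τ
  hτ' : τ ≤ 1 / 200
  hlz : 1 / 2 ≤ lz ∧ lz ≤ 2
  hlw : 1 / 2 ≤ lw ∧ lw ≤ 2
  hlp : 0 < lp ∧ lp ≤ 1 / 100
  hrest : Sorted rest
  hrest' : ∀ e ∈ rest, 0 < e.1 ∧ e.1 ≤ 2 ∧ τ * (3 / 2) ≤ e.2 ∧ e.2 ≤ 1 / 100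

/-- the chain with the velocities `α`, `p`, `β` of the first three edges -/
def bch (τ lz lp lw : ℝ) (rest : List Edge) (α p β : ℝ) : List Edge :=
  (lz, τ * α) :: (lp, τ * p) :: (lw, τ * β) :: rest

end Pool.Agent.Helper20.Flip
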