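import Pool.Agent.Helper20.Flip.Defs

/-!
# Chains: the combinatorial model

A chain is a list of edges `(length, angle)`. The polygon of a chain has the vertices of the chain,
starting at the origin, and one apex high above the origin.
-/

set_option autoImplicit false

namespace Pool.Agent.Helper20.Flip

/-- An edge: length and angle. -/
abbrev Edge := ℝ × ℝ

/-- The vector from the start to the end of a chain. -/
noncomputable def vec (c : List Edge) : Pt :=
  ((c.map fun e => e.1 * Real.cos e.2).sum, (c.map fun e => e.1 * Real.sin e.2).sum)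

/-- The height of the end of the chain above the line of direction `s` through its start. -/
noncomputable def ht (s : ℝ) (c : List Edge) : ℝ := (c.map fun e => e.1 * Real.sin (e.2 - s)).sum

/-- The direction of a chain (with all angles small). -/
noncomputable def dir (c : List Edge) : ℝ := Real.arctan ((vec c).2 / (vec c).1)

/-- Reflection of an edge in a line of direction `s`. -/
def refl (s : ℝ) (e : Edge) : Edge := (e.1, 2 * s - e.2)

/-- Flip of a block. -/
noncomputable def flipBlock (B : List Edge) : List Edge := B.map (refl (dir B))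

/-- In the chain `X ++ B ++ Y` the block `B` bounds a pocket: its vertices are on or above the
lid, not all of them on it, and all other vertices are strictly above the line of the lid. -/
def HullBlock (X B Y : List Edge) : Prop :=
  2 ≤ B.length ∧
  (∀ P Q, B = P ++ Q → 0 ≤ ht (dir B) P) ∧ (∃ P Q, B = P ++ Q ∧ 0 < ht (dir B) P) ∧
  (∀ P Q, Y = P ++ Q → P ≠ [] → 0 < ht (dir B) P) ∧
  (∀ P Q, X = P ++ Q → Q ≠ [] → ht (dir B) Q < 0)

/-- One flip. -/
def CStep (c c' : List Edge) : Prop :=
  ∃ X B Y, c = X ++ B ++ Y ∧ HullBlock X B Y ∧ c' = X ++ flipBlock B ++ Y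

/-- Admissible chains with `N` edges: lengths in `(0, 2]`, angles at most `1/100`. -/
def Ok (N : ℕ) (c : List Edge) : Prop :=
  c.length = N ∧ 1 ≤ N ∧ ∀ e ∈ c, 0 < e.1 ∧ e.1 ≤ 2 ∧ |e.2| ≤ 1 / 100

/-- The polygon of a chain with `N` edges. -/
noncomputable def polyOf (N : ℕ) (c : List Edge) : ZMod (N + 2) → Pt :=
  fun k => if k.val ≤ N then vec (c.take k.val) else (0, 4 * ((N : ℝ) + 1))

/-- Sequences of `m` flips through admissible chains. -/
inductive CSeq (N : ℕ) : ℕ → List Edge → List Edge → Prop
  | refl (c : List Edge) : CSeq N 0 c c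
  | step {m : ℕ} {c c' c'' : List Edge} : CStep c c' → Ok N c' → CSeq N m c' c'' →
      CSeq N (m + 1) c c''

/-- A good block: all inner vertices are strictly above the lid. -/
def GoodBlock (B : List Edge) : Prop :=
  B ≠ [] ∧ ∀ P Q, B = P ++ Q → P ≠ [] → Q ≠ [] → 0 < ht (dir B) P

/-- The angles of a chain are strictly increasing. -/
def Sorted (c : List Edge) : Prop := c.Pairwise fun e e' => e.2 < e'.2

/-- The angles of a chain are weakly increasing. -/
def WSorted (c : List Edge) : Prop := c.Pairwise fun e e' => e.2 ≤ e'.2

end Pool.Agent.Helper20.Flip
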