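import Mathlib

/-!
# Polygons, pockets and flips
-/

set_option autoImplicit false

namespace Pool.Agent.Helper20.Flip

/-- Points of the plane. -/
abbrev Pt := ℝ × ℝ

/-- Twice the signed area of the triangle `A B C`; it is positive iff `C` lies strictly to the
left of the directed line `A B`, and zero iff `C` lies on that line (for `A ≠ B`). -/
def cross (A B C : Pt) : ℝ := (B.1 - A.1) * (C.2 - A.2) - (B.2 - A.2) * (C.1 - A.1)

/-- The mirror image of `X` in the line through `A` and `B`: twice the foot of the perpendicular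
minus `X`. -/
noncomputable def mirror (A B X : Pt) : Pt :=
  (2 * (A.1 + ((X.1 - A.1) * (B.1 - A.1) + (X.2 - A.2) * (B.2 - A.2)) /
      ((B.1 - A.1) ^ 2 + (B.2 - A.2) ^ 2) * (B.1 - A.1)) - X.1,
   2 * (A.2 + ((X.1 - A.1) * (B.1 - A.1) + (X.2 - A.2) * (B.2 - A.2)) /
      ((B.1 - A.1) ^ 2 + (B.2 - A.2) ^ 2) * (B.2 - A.2)) - X.2)

/-- A closed polygonal curve with vertices `V 0, …, V (n-1)` (indices modulo `n`) is simple: the
edges are nondegenerate, and two different edges meet only if they are consecutive, and then only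
in their common vertex. -/
def IsSimple {n : ℕ} (V : ZMod n → Pt) : Prop :=
  3 ≤ n ∧ (∀ i, V i ≠ V (i + 1)) ∧
  ∀ i j : ZMod n, i ≠ j → ∀ X ∈ segment ℝ (V i) (V (i + 1)), X ∈ segment ℝ (V j) (V (j + 1)) →
    (j = i + 1 ∧ X = V j) ∨ (i = j + 1 ∧ X = V i)

/-- Twice the signed area enclosed by the polygon (shoelace formula); a simple polygon is listed
counterclockwise iff this is positive. -/
def area2 {n : ℕ} (V : ZMod n → Pt) : ℝ :=
  ∑ k ∈ Finset.range n, ((V (k : ZMod n)).1 * (V ((k : ZMod n) + 1)).2 -
    (V ((k : ZMod n) + 1)).1 * (V (k : ZMod n)).2)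

/-- For a simple polygon listed counterclockwise: the subchain `V i, V (i+1), …, V (i+m)` bounds a
pocket with lid the segment from `V i` to `V (i+m)`. That is, the lid is an edge of the convex
hull (all vertices of the polygon lie to the left of it, or on it between its end points), the
subchain has at least two edges and so has the rest of the polygon, and the subchain is not
contained in the lid. -/
def IsPocket {n : ℕ} (V : ZMod n → Pt) (i : ZMod n) (m : ℕ) : Prop :=
  2 ≤ m ∧ m + 2 ≤ n ∧ V i ≠ V (i + m) ∧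
  (∀ k, 0 ≤ cross (V i) (V (i + m)) (V k)) ∧
  (∀ k, cross (V i) (V (i + m)) (V k) = 0 → V k ∈ segment ℝ (V i) (V (i + m))) ∧
  ∃ t : ℕ, 0 < t ∧ t < m ∧ 0 < cross (V i) (V (i + m)) (V (i + t))

open Classical in
/-- Flipping the pocket: the subchain strictly between `V i` and `V (i+m)` is replaced by its
mirror image in the line through the lid. -/
noncomputable def flip {n : ℕ} (V : ZMod n → Pt) (i : ZMod n) (m : ℕ) : ZMod n → Pt :=
  fun k => if ∃ t : ℕ, 0 < t ∧ t < m ∧ k = i + t then mirror (V i) (V (i + m)) (V k) else V k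

/-- `FlipSeq m V V'`: the polygon `V'` arises from `V` by a sequence of `m` allowed flips. -/
inductive FlipSeq {n : ℕ} : ℕ → (ZMod n → Pt) → (ZMod n → Pt) → Prop
  | refl (V : ZMod n → Pt) : FlipSeq 0 V V
  | step {m : ℕ} {V V' : ZMod n → Pt} (i : ZMod n) (l : ℕ) : IsPocket V i l →
      IsSimple (flip V i l) → FlipSeq m (flip V i l) V' → FlipSeq (m + 1) V V'

/-- A simple polygon listed counterclockwise is convex: every vertex lies to the left of (or on)
the line through every edge. -/
def IsConvex {n : ℕ} (V : ZMod n → Pt) : Prop :=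
  ∀ i k, 0 ≤ cross (V i) (V (i + 1)) (V k)

/-- There is a sequence of at least `k` flips that convexifies the polygon. -/
def Longest {n : ℕ} (V : ZMod n → Pt) (k : ℕ) : Prop :=
  ∃ m, k ≤ m ∧ ∃ V', FlipSeq m V V' ∧ IsConvex V'

/-- There is a sequence of at most `k` flips that convexifies the polygon. -/
def Shortest {n : ℕ} (V : ZMod n → Pt) (k : ℕ) : Prop :=
  ∃ m, m ≤ k ∧ ∃ V', FlipSeq m V V' ∧ IsConvex V'

end Pool.Agent.Helper20.Flip
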