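import Pool.Agent.Helper20.Flip.Par

/-!
# The macro phase: states
-/

set_option autoImplicit false

namespace Pool.Agent.Helper20.Flip

namespace Par

/-- A state: the velocities of the edges `Z`, `p`, of the walls `0, …, M` and of the tiny edges
`1, …, M`, where `M = n + 2`. -/
structure St where
  vz : ℝ
  vp : ℝ
  vw : ℕ → ℝ
  vt : ℕ → ℝ

variable (P : Par)

def M : ℕ := P.n + 2

noncomputable def Lz : ℝ := (toEdge (1, P.τ * (3 * P.η * P.T))).1
noncomputable def Lp : ℝ := (toEdge (P.η ^ 3, P.η ^ 3 * (P.τ * (1 / 2)))).1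
noncomputable def Lw (j : ℕ) : ℝ := (toEdge (1, P.τ * (if j = P.n + 2 then P.η / 16 else R j))).1
noncomputable def Lt (j : ℕ) : ℝ := (toEdge (P.ε j, P.ε j * (P.τ * (R j / 2)))).1

/-- wall number `j` -/
noncomputable def w (st : St) (j : ℕ) : Edge := (P.Lw j, P.τ * st.vw j)
/-- tiny edge number `j` -/
noncomputable def t (st : St) (j : ℕ) : Edge := (P.Lt j, P.τ * st.vt j)
/-- there is no tiny edge number `0` -/
noncomputable def tl (st : St) (j : ℕ) : List Edge := if j = 0 then [] else [P.t st j]
noncomputable def seg (st : St) (j : ℕ) : List Edge := P.w st j :: P.tl st j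

/-- the chain of a state -/
noncomputable def chain (st : St) : List Edge :=
  (P.Lz, P.τ * st.vz) :: (P.Lp, P.τ * st.vp) :: (List.range (P.M + 1)).flatMap (P.seg st)

/-- nominal velocity of the tiny edge `j`, when the pulse is at the wall `J` and `f` is the set of
tiny edges that have been flipped -/
noncomputable def tnom (J : ℕ) (f : ℕ → Bool) (j : ℕ) : ℝ :=
  if f j then (if j < J then 3 / 2 * R j else if j = J then - (R j / 2) else 3 / 4 * R j)
  else R j / 2

/-- rough description of the states of the macro phase -/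
structure Coarse (J : ℕ) (f : ℕ → Bool) (st : St) : Prop where
  hJ : J ≤ P.M
  hf : ∀ j, f j = true → 1 ≤ j ∧ j ≤ P.n
  hz : |st.vz| ≤ 1 / 32
  hp : |st.vp - 1 / 2| ≤ 1 / 32
  hw1 : ∀ j, j < J → |st.vw j - R j| ≤ 1 / 64
  hw2 : |st.vw J| ≤ 1 / 32
  hw3 : ∀ j, J < j → j ≤ P.M → |st.vw j - R (j - 1)| ≤ 1 / 64
  ht : ∀ j, 1 ≤ j → j ≤ P.M → |st.vt j - tnom J f j| ≤ 1 / 64

/-- the small pocket number `j` -/
noncomputable def vblock (st : St) (j : ℕ) : List Edge := [P.w st j, P.t st j]

/-- the big pocket when the pulse is at the wall `J ≥ 1` -/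
noncomputable def mblock (J : ℕ) (f : ℕ → Bool) (st : St) : List Edge :=
  P.seg st (J - 1) ++ [P.w st J] ++ (if f J then P.tl st J else [])

/-- direction of the small pocket, as a velocity -/
noncomputable def sV (st : St) (j : ℕ) : ℝ := dir (P.vblock st j) / P.τ
/-- direction of the big pocket, as a velocity -/
noncomputable def sF (J : ℕ) (f : ℕ → Bool) (st : St) : ℝ := dir (P.mblock J f st) / P.τ

/-- the state after the flip of the small pocket `j` -/
noncomputable def stV (st : St) (j : ℕ) : St where
  vz := st.vz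
  vp := st.vp
  vw := Function.update st.vw j (2 * P.sV st j - st.vw j)
  vt := Function.update st.vt j (2 * P.sV st j - st.vt j)

/-- the state after the flip of the big pocket -/
noncomputable def stF (J : ℕ) (f : ℕ → Bool) (st : St) : St where
  vz := st.vz
  vp := st.vp
  vw := fun j => if j = J - 1 ∨ j = J then 2 * P.sF J f st - st.vw j else st.vw j
  vt := fun j => if j = J - 1 ∨ (j = J ∧ f J = true) then 2 * P.sF J f st - st.vt j else st.vt j

end Par

end Pool.Agent.Helper20.Flip
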