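import Pool.Agent.Helper85.Flip.Dir
import Pool.Agent.Helper20.Flip.MNum

/-!
# The macro phase: the invariant
-/

set_option autoImplicit false

namespace Pool.Agent.Helper20.Flip

namespace Par
variable (P : Par)

/-- the contribution of `j` to the subset sum -/
noncomputable def A (f : ℕ → Bool) (j : ℕ) : ℝ := if f j then (P.a j : ℝ) else 0

/-- the nominal velocity of the pulse at the wall `J` -/
noncomputable def Q (J : ℕ) (f : ℕ → Bool) : ℝ :=
  P.η / 16 + 8 * (P.η * P.A f J) + 3 * (P.η * ∑ j ∈ Finset.Icc (J + 1) P.M, P.A f j)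

structure Inv (J : ℕ) (f : ℕ → Bool) (st : St) : Prop where
  hJ : J ≤ P.M
  hf : ∀ j, f j = true → 1 ≤ j ∧ j ≤ P.n
  hz : |st.vz - 3 * P.η * P.T| ≤ P.δ ^ 2
  hp : |st.vp - 1 / 2| ≤ P.δ ^ 2
  hw1 : ∀ j, j < J → |st.vw j - R j| ≤ 16 * P.δ
  hw1' : ∀ j, j < J → f j = false → |st.vw j - R j| ≤ P.δ
  hw2 : |st.vw J - P.Q J f| ≤ ((P.M : ℝ) + 1 - J) * (1024 * P.δ ^ 2)
  hw3 : ∀ j, J < j → j ≤ P.M → |st.vw j - R (j - 1)| ≤ 64 * P.δ
  ht1 : ∀ j, 1 ≤ j → j < J → |st.vt j - tnom J f j| ≤ 16 * P.δ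
  ht1' : ∀ j, 1 ≤ j → j < J → f j = false → |st.vt j - R j / 2| ≤ P.δ
  ht2 : 1 ≤ J → |st.vt J - tnom J f J| ≤ 64 * P.δ
  ht3 : ∀ j, J < j → j ≤ P.M → |st.vt j - tnom J f j| ≤ 128 * P.δ

variable {P}

theorem A_nonneg (f : ℕ → Bool) (j : ℕ) : 0 ≤ P.A f j := by
  unfold A
  split_ifs
  · exact (P.a_pos j).le
  · exact le_rfl

theorem A_le {f : ℕ → Bool} (hf : ∀ j, f j = true → 1 ≤ j ∧ j ≤ P.n) (j : ℕ) :
    P.η * P.A f j ≤ P.δ := by
  unfold A
  split_ifs with h
  · exact P.ηa_le (hf j h).1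
  · rw [mul_zero]
    exact P.δ_pos.le

theorem sumA_le {f : ℕ → Bool} (hf : ∀ j, f j = true → 1 ≤ j ∧ j ≤ P.n) (s : Finset ℕ) :
    P.η * ∑ j ∈ s, P.A f j ≤ P.δ := by
  unfold δ
  refine mul_le_mul_of_nonneg_left ?_ P.η_pos.le
  have h1 : ∑ j ∈ s, P.A f j ≤ ∑ j ∈ Finset.Icc 1 P.n, (P.a j : ℝ) := by
    have h2 : ∑ j ∈ s, P.A f j ≤ ∑ j ∈ s ∪ Finset.Icc 1 P.n, P.A f j :=
      Finset.sum_le_sum_of_subset_of_nonneg Finset.subset_union_left (fun i _ _ => A_nonneg f i)
    have h3 : ∑ j ∈ Finset.Icc 1 P.n, P.A f j = ∑ j ∈ s ∪ Finset.Icc 1 P.n, P.A f j := by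
      refine Finset.sum_subset Finset.subset_union_right ?_
      intro j _ hj
      unfold A
      split_ifs with h
      · exact absurd (Finset.mem_Icc.2 (hf j h)) hj
      · rfl
    refine h2.trans (h3 ▸ ?_)
    refine Finset.sum_le_sum fun j _ => ?_
    unfold A
    split_ifs
    · exact le_rfl
    · exact (P.a_pos j).le
  refine h1.trans ?_
  have h2 := P.hs
  exact_mod_cast h2.le

theorem Q_bounds {f : ℕ → Bool} (hf : ∀ j, f j = true → 1 ≤ j ∧ j ≤ P.n) (J : ℕ) :
    0 ≤ P.Q J f ∧ P.Q J f ≤ 12 * P.δ := by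
  have h1 := sumA_le hf (Finset.Icc (J + 1) P.M)
  have h2 := A_le hf J
  have h3 := P.η_pos
  have h4 := P.η_le_δ
  have h5 : 0 ≤ P.η * P.A f J := mul_nonneg h3.le (A_nonneg f J)
  have h6 : 0 ≤ P.η * ∑ j ∈ Finset.Icc (J + 1) P.M, P.A f j :=
    mul_nonneg h3.le (Finset.sum_nonneg fun j _ => A_nonneg f j)
  unfold Q
  constructor <;> linarith

theorem Q_step {f : ℕ → Bool} {J : ℕ} (hJ : J + 1 ≤ P.M) :
    P.Q J f = P.Q (J + 1) f + (8 * (P.η * P.A f J) - 5 * (P.η * P.A f (J + 1))) := by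
  unfold Q
  have h1 : ∑ j ∈ Finset.Icc (J + 1) P.M, P.A f j =
      P.A f (J + 1) + ∑ j ∈ Finset.Icc (J + 1 + 1) P.M, P.A f j := by
    have h2 : Finset.Icc (J + 1 + 1) P.M = Finset.Ioc (J + 1) P.M := by
      ext x
      simp only [Finset.mem_Icc, Finset.mem_Ioc]
      omega
    rw [Finset.Icc_eq_cons_Ioc hJ, Finset.sum_cons, h2]
  rw [h1]
  ring

theorem Q_congr {f g : ℕ → Bool} {J : ℕ} (h : ∀ j, J ≤ j → f j = g j) : P.Q J f = P.Q J g := by
  unfold Q
  have h1 : ∀ j, J ≤ j → P.A f j = P.A g j := by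
    intro j hj
    unfold A
    rw [h j hj]
  rw [h1 J le_rfl]
  rw [Finset.sum_congr rfl (fun j hj => h1 j (by have := (Finset.mem_Icc.1 hj).1; omega))]

theorem Q_top {f : ℕ → Bool} (hf : ∀ j, f j = true → 1 ≤ j ∧ j ≤ P.n) : P.Q P.M f = P.η / 16 := by
  unfold Q
  have h1 : P.A f P.M = 0 := by
    unfold A
    split_ifs with h
    · have := (hf _ h).2
      unfold M at this
      omega
    · rfl
  rw [h1, Finset.Icc_eq_empty (by omega)]
  simp

theorem Q_zero {f : ℕ → Bool} (hf : ∀ j, f j = true → 1 ≤ j ∧ j ≤ P.n) :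
    P.Q 0 f = P.η / 16 + 3 * P.η * P.ssum f := by
  unfold Q
  have h1 : P.A f 0 = 0 := by
    unfold A
    split_ifs with h
    · have := (hf _ h).1
      omega
    · rfl
  have h2 : ∑ j ∈ Finset.Icc (0 + 1) P.M, P.A f j = P.ssum f := by
    unfold ssum
    push_cast
    symm
    have h3 : ∀ j ∈ Finset.Icc 1 P.n, (if f j = true then (P.a j : ℝ) else 0) = P.A f j := fun j _ => rfl
    rw [Finset.sum_congr rfl h3]
    refine Finset.sum_subset (Finset.Icc_subset_Icc_right (by unfold M; omega)) ?_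
    intro j _ hj
    unfold A
    split_ifs with h
    · exact absurd (Finset.mem_Icc.2 (hf j h)) hj
    · rfl
  rw [h1, h2]
  ring

variable (P) in
theorem τG_le : P.τ * P.G ≤ 1 / 100 := by
  have h1 := P.e0_mul
  have h2 := P.G_ge
  have h3 := P.τ_pos
  have h4 := P.δ_le
  have h5 := P.δ_pos
  have h6 : (P.τ * P.G) ^ 2 ≤ P.δ ^ 2 := by
    refine le_trans ?_ h1
    unfold e0
    have : P.τ ^ 2 * P.G ^ 3 * P.G = (P.τ * P.G) ^ 2 * P.G ^ 2 := by ring
    rw [this]
    have h7 : 1 ≤ P.G ^ 2 := by nlinarith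
    have h8 := sq_nonneg (P.τ * P.G)
    nlinarith
  have h9 := abs_le_of_sq_le_sq' h6 h5.le
  norm_num at h4
  linarith [h9.2]

/-- the direction of a chain is close to the mean velocity -/
theorem dir_vel {c : List (ℝ × ℝ)} (hc : c ≠ []) (h1 : ∀ e ∈ c, 0 < e.1) (h2 : ∀ e ∈ c, |e.2| ≤ P.G) :
    |dir (c.map fun e => (e.1, P.τ * e.2)) / P.τ -
      (c.map fun e => e.1 * e.2).sum / (c.map fun e => e.1).sum| ≤ 8 * P.e0 := by
  have hτ := P.τ_pos
  have hτG := P.τG_le
  have h3 : ∀ e ∈ c.map (fun e => ((e.1, P.τ * e.2) : Edge)), |e.2| ≤ P.τ * P.G := by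
    intro e he
    obtain ⟨e', he', rfl⟩ := List.mem_map.1 he
    simp only
    rw [abs_mul, abs_of_pos hτ]
    exact mul_le_mul_of_nonneg_left (h2 e' he') hτ.le
  have h4 : Small (c.map fun e => ((e.1, P.τ * e.2) : Edge)) := by
    intro e he
    refine ⟨?_, (h3 e he).trans hτG⟩
    obtain ⟨e', he', rfl⟩ := List.mem_map.1 he
    exact h1 e' he'
  have h5 := dir_approx h4 (by simpa using hc) hτG h3
  have h6 : ((c.map fun e => ((e.1, P.τ * e.2) : Edge)).map fun e => e.1 * e.2).sum =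
      P.τ * (c.map fun e => e.1 * e.2).sum := by
    rw [List.map_map, ← List.sum_map_mul_left]
    congr 1
    refine List.map_congr_left fun e _ => ?_
    simp only [Function.comp]
    ring
  have h7 : ((c.map fun e => ((e.1, P.τ * e.2) : Edge)).map fun e => e.1).sum =
      (c.map fun e => e.1).sum := by
    rw [List.map_map]
    rfl
  rw [h6, h7] at h5
  have h8 : dir (c.map fun e => ((e.1, P.τ * e.2) : Edge)) / P.τ -
      (c.map fun e => e.1 * e.2).sum / (c.map fun e => e.1).sum =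
      (dir (c.map fun e => ((e.1, P.τ * e.2) : Edge)) -
        P.τ * (c.map fun e => e.1 * e.2).sum / (c.map fun e => e.1).sum) / P.τ := by
    field_simp
  rw [h8, abs_div, abs_of_pos hτ, div_le_iff₀ hτ]
  refine h5.trans (le_of_eq ?_)
  unfold e0
  ring

theorem sV_approx {st : St} {j : ℕ} (hjM : j ≤ P.M) (h1 : |st.vw j| ≤ P.G) (h2 : |st.vt j| ≤ P.G) :
    |P.sV st j - (P.Lw j * st.vw j + P.Lt j * st.vt j) / (P.Lw j + P.Lt j)| ≤ 8 * P.e0 := by
  have h3 := (P.Lw_bounds hjM).1
  have h4 := (P.Lt_bounds hjM).1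
  have h5 := P.εpos j
  have h := dir_vel (P := P) (c := [(P.Lw j, st.vw j), (P.Lt j, st.vt j)]) (by simp) (by
    simp only [List.mem_cons, List.not_mem_nil, or_false]
    rintro e (rfl | rfl)
    · simp only; linarith
    · simp only; linarith) (by
    simp only [List.mem_cons, List.not_mem_nil, or_false]
    rintro e (rfl | rfl)
    · exact h1
    · exact h2)
  simpa [sV, vblock, w, t] using h

theorem sV_bound {st : St} {j : ℕ} (hj : 1 ≤ j) (hjM : j ≤ P.M) (h1 : |st.vw j - R j| ≤ P.δ)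
    (h2 : |st.vt j - R j / 2| ≤ P.δ) : |P.sV st j - R j| ≤ 7 * P.δ := by
  have hG := P.R_le hjM
  have hG' := P.G_ge
  have hR := R_ge j
  have hδ := P.δ_le
  have hδ0 := P.δ_pos
  norm_num at hδ
  have e1 := abs_le.1 h1
  have e2 := abs_le.1 h2
  have h := sV_approx (P := P) (st := st) hjM (by rw [abs_le]; constructor <;> linarith)
    (by rw [abs_le]; constructor <;> linarith)
  have h3 := P.Lw_bounds hjM
  have h4 := P.Lt_bounds hjM
  have h5 := P.εpos j
  have he0 := P.e0_le
  have he0' := P.e0_pos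
  have hδ2 := P.δsq_le'
  norm_num at hδ2
  have hD : 1 ≤ P.Lw j + P.Lt j := by linarith
  have h6 : (P.Lw j * st.vw j + P.Lt j * st.vt j) / (P.Lw j + P.Lt j) - st.vw j =
      P.Lt j * (st.vt j - st.vw j) / (P.Lw j + P.Lt j) := by
    field_simp
    ring
  have h7 : |P.Lt j * (st.vt j - st.vw j) / (P.Lw j + P.Lt j)| ≤ 5 * P.δ := by
    rw [abs_div, abs_of_pos (a := P.Lw j + P.Lt j) (by linarith), div_le_iff₀ (by linarith)]
    have h8 : |P.Lt j * (st.vt j - st.vw j)| ≤ P.ε j * (1 + P.e0) * (R j / 2 + 2 * P.δ) := by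
      rw [abs_mul]
      refine mul_le_mul ?_ ?_ (abs_nonneg _) (by positivity)
      · rw [abs_of_pos (by linarith)]
        exact h4.2
      · rw [abs_le]
        constructor <;> linarith
    have h9 : P.ε j * (R j / 2 + 2 * P.δ) ≤ 4 * P.δ + 2 * P.δ * P.δ := by
      have h10 := P.ε_R j
      have h11 := P.ηa_le hj
      have h12 := P.ε_le hj
      nlinarith
    have h13 : P.ε j * (1 + P.e0) * (R j / 2 + 2 * P.δ) ≤ 5 * P.δ := by
      have : P.ε j * (1 + P.e0) * (R j / 2 + 2 * P.δ) =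
        (1 + P.e0) * (P.ε j * (R j / 2 + 2 * P.δ)) := by ring
      rw [this]
      have h14 : P.e0 ≤ 1 / 100 := by linarith
      have h15 : 2 * P.δ * P.δ ≤ P.δ / 100 := by nlinarith
      calc (1 + P.e0) * (P.ε j * (R j / 2 + 2 * P.δ)) ≤ (1 + 1 / 100) * (4 * P.δ + P.δ / 100) := by
            refine mul_le_mul (by linarith) (by linarith) (by positivity) (by norm_num)
        _ ≤ 5 * P.δ := by linarith
    nlinarith
  have h8 := abs_le.1 h
  have h9 := abs_le.1 h7
  rw [← h6] at h9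
  rw [abs_le]
  constructor <;> linarith [h8.1, h8.2, h9.1, h9.2]

/-- length of the tiny edge `J` in the big pocket -/
noncomputable def l1 (P : Par) (J : ℕ) : ℝ := if J = 0 then 0 else P.Lt J
/-- length of the tiny edge `J + 1` in the big pocket -/
noncomputable def l2 (P : Par) (f : ℕ → Bool) (J : ℕ) : ℝ := if f (J + 1) then P.Lt (J + 1) else 0

theorem sF_approx {st : St} {J : ℕ} {f : ℕ → Bool} (hjM : J + 1 ≤ P.M)
    (h1 : |st.vw J| ≤ P.G) (h2 : 1 ≤ J → |st.vt J| ≤ P.G)
    (h3 : |st.vw (J + 1)| ≤ P.G) (h4 : |st.vt (J + 1)| ≤ P.G) :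
    |P.sF (J + 1) f st - (P.Lw J * st.vw J + l1 P J * st.vt J + P.Lw (J + 1) * st.vw (J + 1) +
      l2 P f J * st.vt (J + 1)) / (P.Lw J + l1 P J + P.Lw (J + 1) + l2 P f J)| ≤ 8 * P.e0 := by
  have g1 := (P.Lw_bounds (j := J) (by omega)).1
  have g2 := (P.Lt_bounds (j := J) (by omega)).1
  have g3 := P.εpos J
  have g1' := (P.Lw_bounds (j := J + 1) (by omega)).1
  have g2' := (P.Lt_bounds (j := J + 1) (by omega)).1
  have g3' := P.εpos (J + 1)
  have h := dir_vel (P := P) (c := ((P.Lw J, st.vw J) :: (if J = 0 then [] else [(P.Lt J, st.vt J)])) ++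
    [(P.Lw (J + 1), st.vw (J + 1))] ++ (if f (J + 1) then [(P.Lt (J + 1), st.vt (J + 1))] else []))
    (by simp) (by
      intro e he
      simp only [List.mem_append, List.mem_cons, List.not_mem_nil, or_false] at he
      rcases he with ((rfl | he) | rfl) | he
      · simp only; linarith
      · split_ifs at he
        · simp at he
        · simp only [List.mem_cons, List.not_mem_nil, or_false] at he
          subst he
          simp only; linarith
      · simp only; linarith
      · split_ifs at he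
        · simp only [List.mem_cons, List.not_mem_nil, or_false] at he
          subst he
          simp only; linarith
        · simp at he) (by
      intro e he
      simp only [List.mem_append, List.mem_cons, List.not_mem_nil, or_false] at he
      rcases he with ((rfl | he) | rfl) | he
      · exact h1
      · split_ifs at he with hJ0
        · simp at he
        · simp only [List.mem_cons, List.not_mem_nil, or_false] at he
          subst he
          exact h2 (by omega)
      · exact h3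
      · split_ifs at he
        · simp only [List.mem_cons, List.not_mem_nil, or_false] at he
          subst he
          exact h4
        · simp at he)
  have e1 : (((P.Lw J, st.vw J) :: (if J = 0 then [] else [(P.Lt J, st.vt J)])) ++
    [(P.Lw (J + 1), st.vw (J + 1))] ++
      (if f (J + 1) then [(P.Lt (J + 1), st.vt (J + 1))] else [])).map
      (fun e => ((e.1, P.τ * e.2) : Edge)) = P.mblock (J + 1) f st := by
    unfold mblock seg tl w t
    generalize f (J + 1) = b
    by_cases hJ0 : J = 0 <;> cases b <;> simp [hJ0]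
  have e2 : ((((P.Lw J, st.vw J) :: (if J = 0 then [] else [(P.Lt J, st.vt J)])) ++
    [(P.Lw (J + 1), st.vw (J + 1))] ++
      (if f (J + 1) then [(P.Lt (J + 1), st.vt (J + 1))] else [])).map
      (fun e => e.1 * e.2)).sum = P.Lw J * st.vw J + l1 P J * st.vt J +
        P.Lw (J + 1) * st.vw (J + 1) + l2 P f J * st.vt (J + 1) := by
    unfold l1 l2
    generalize f (J + 1) = b
    by_cases hJ0 : J = 0 <;> cases b <;> simp [hJ0] <;> ring
  have e3 : ((((P.Lw J, st.vw J) :: (if J = 0 then [] else [(P.Lt J, st.vt J)])) ++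
    [(P.Lw (J + 1), st.vw (J + 1))] ++
      (if f (J + 1) then [(P.Lt (J + 1), st.vt (J + 1))] else [])).map
      (fun e => e.1)).sum = P.Lw J + l1 P J + P.Lw (J + 1) + l2 P f J := by
    unfold l1 l2
    generalize f (J + 1) = b
    by_cases hJ0 : J = 0 <;> cases b <;> simp [hJ0] <;> ring
  rw [e1, e2, e3] at h
  exact h

theorem tnom_bound {J j : ℕ} {f : ℕ → Bool} (hjM : j ≤ P.M) : |tnom J f j| ≤ 3 / 4 * P.G := by
  have h1 := P.R_le hjM
  have h2 := Rpos j
  unfold tnom
  split_ifs <;> rw [abs_le] <;> constructor <;> linarith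

theorem Inv.pulse {J : ℕ} {f : ℕ → Bool} {st : St} (h : P.Inv J f st) :
    |st.vw J| ≤ 13 * P.δ := by
  have h1 := abs_le.1 h.hw2
  have h2 := Q_bounds h.hf J
  have h3 := P.δsq_le
  have h4 := P.η_le_δ
  have h5 := P.δ_pos
  have h6 : ((P.M : ℝ) + 1 - J) * (1024 * P.δ ^ 2) ≤ P.δ := by
    have h7 : ((P.M : ℝ) + 1 - J) * (1024 * P.δ ^ 2) ≤ ((P.n : ℝ) + 3) * (1024 * P.δ ^ 2) := by
      refine mul_le_mul_of_nonneg_right ?_ (by positivity)
      unfold M
      push_cast
      have : (0 : ℝ) ≤ J := Nat.cast_nonneg J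
      linarith
    linarith
  rw [abs_le]
  constructor <;> linarith

/-- the velocity change in the big flip -/
noncomputable def m0 (P : Par) (f : ℕ → Bool) (J : ℕ) : ℝ :=
  8 * (P.η * P.A f J) - 5 * (P.η * P.A f (J + 1))

theorem m0_bound {f : ℕ → Bool} (hf : ∀ j, f j = true → 1 ≤ j ∧ j ≤ P.n) (J : ℕ) :
    |P.m0 f J| ≤ 8 * P.δ := by
  have h1 := A_le hf J
  have h2 := A_le hf (J + 1)
  have h3 := mul_nonneg P.η_pos.le (A_nonneg (P := P) f J)
  have h4 := mul_nonneg P.η_pos.le (A_nonneg (P := P) f (J + 1))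
  unfold m0
  rw [abs_le]
  constructor <;> linarith

theorem Inv.F_est {J : ℕ} {f : ℕ → Bool} {st : St} (h : P.Inv (J + 1) f st) :
    |2 * P.sF (J + 1) f st - st.vw J - st.vw (J + 1) - P.m0 f J| ≤ 1024 * P.δ ^ 2 := by
  have hJM := h.hJ
  have hG := P.R_le (j := J) (by omega)
  have hG' := P.G_ge
  have hG1 := P.R_le (j := J + 1) hJM
  have hRs := Rsucc J
  have hR := R_ge J
  have hδ := P.δ_le
  have hδ0 := P.δ_pos
  norm_num at hδ
  have he0 := P.e0_le
  have he0' := P.e0_pos
  have heG := P.e0_mul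
  have hpulse := abs_le.1 h.pulse
  have ha := abs_le.1 (h.hw1 J (by omega))
  have htJ : 1 ≤ J → |st.vt J| ≤ P.G := by
    intro hJ
    have h1 := abs_le.1 (h.ht1 J hJ (by omega))
    have h2 := abs_le.1 (tnom_bound (P := P) (J := J + 1) (f := f) (j := J) (by omega))
    rw [abs_le]
    constructor <;> linarith
  have htJ1 : |st.vt (J + 1)| ≤ P.G := by
    have h1 := abs_le.1 (h.ht2 (by omega))
    have h2 := abs_le.1 (tnom_bound (P := P) (J := J + 1) (f := f) (j := J + 1) (by omega))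
    rw [abs_le]
    constructor <;> linarith
  have hs := sF_approx (P := P) (st := st) (f := f) hJM
    (by rw [abs_le]; constructor <;> linarith) htJ (by rw [abs_le]; constructor <;> linarith) htJ1
  have hL := P.Lw_bounds (j := J) (by omega)
  have hL' := P.Lw_bounds (j := J + 1) (by omega)
  have hm0 := abs_le.1 (m0_bound h.hf J)
  -- the tiny edge `J`
  have hk1 : |l1 P J * (2 * st.vt J - st.vw J - st.vw (J + 1)) - 16 * (P.η * P.A f J)| ≤ 62 * P.δ ^ 2 ∧
      0 ≤ l1 P J ∧ l1 P J ≤ 2 * P.δ := by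
    rcases Nat.eq_zero_or_pos J with hJ0 | hJ0
    · have h1 : P.A f J = 0 := by
        unfold A
        split_ifs with h2
        · have := (h.hf _ h2).1
          omega
        · rfl
      unfold l1
      rw [if_pos hJ0, h1]
      refine ⟨?_, le_rfl, by positivity⟩
      simp only [zero_mul, mul_zero, sub_zero, abs_zero]
      positivity
    · have hl := P.Lt_bounds (j := J) (by omega)
      have hε := P.εpos J
      have hε' := P.ε_le (j := J) hJ0
      have hεR := P.ε_R J
      unfold l1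
      rw [if_neg (by omega)]
      obtain ⟨θ, hθ, hθ', hθ''⟩ : ∃ θ, P.Lt J = P.ε J + P.ε J * θ ∧ 0 ≤ θ ∧ θ ≤ P.e0 := by
        refine ⟨(P.Lt J - P.ε J) / P.ε J, by field_simp; ring, div_nonneg (by linarith) hε.le, ?_⟩
        rw [div_le_iff₀ hε]
        nlinarith [hl.2]
      have hl2 : P.Lt J ≤ 2 * P.δ := by
        refine hl.2.trans ?_
        nlinarith
      refine ⟨?_, by linarith, hl2⟩
      by_cases hfJ : f J = true
      · have h1 := abs_le.1 (h.ht1 J hJ0 (by omega))
        have h2 : tnom (J + 1) f J = 3 / 2 * R J := by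
          unfold tnom
          rw [if_pos hfJ, if_pos (by omega)]
        have h3 : P.A f J = P.a J := by unfold A; rw [if_pos hfJ]
        rw [h2] at h1
        rw [h3, hθ]
        obtain ⟨u, hu, hu'⟩ : ∃ u, 2 * st.vt J - st.vw J - st.vw (J + 1) = 2 * R J + u ∧
            |u| ≤ 61 * P.δ := ⟨2 * st.vt J - st.vw J - st.vw (J + 1) - 2 * R J, by ring, by
              rw [abs_le]; constructor <;> linarith⟩
        rw [hu]
        have h4 : (P.ε J + P.ε J * θ) * (2 * R J + u) - 16 * (P.η * P.a J) =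
            P.ε J * u + (P.ε J * θ) * (2 * R J + u) := by
          linear_combination 2 * hεR
        rw [h4]
        have h5 : |P.ε J * u| ≤ P.δ * (61 * P.δ) := by
          rw [abs_mul, abs_of_pos hε]
          exact mul_le_mul hε' hu' (abs_nonneg _) hδ0.le
        have h6 : |(P.ε J * θ) * (2 * R J + u)| ≤ P.δ * P.e0 * (2 * P.G) := by
          rw [abs_mul]
          refine mul_le_mul ?_ ?_ (abs_nonneg _) (by positivity)
          · rw [abs_of_nonneg (by positivity)]
            exact mul_le_mul hε' hθ'' hθ' hδ0.le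
          · have := abs_le.1 hu'
            rw [abs_le]
            constructor <;> linarith
        have h7 : P.δ * P.e0 * (2 * P.G) ≤ P.δ ^ 2 := by
          have h8 : P.δ * P.e0 * (2 * P.G) = 2 * P.δ * (P.e0 * P.G) := by ring
          rw [h8]
          nlinarith [mul_pos he0' (by linarith : 0 < P.G), sq_nonneg P.δ]
        refine (abs_add_le _ _).trans ?_
        nlinarith
      · have hfJ' : f J = false := by simpa using hfJ
        have h1 := abs_le.1 (h.ht1' J hJ0 (by omega) hfJ')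
        have ha' := abs_le.1 (h.hw1' J (by omega) hfJ')
        have h3 : P.A f J = 0 := by unfold A; rw [if_neg hfJ]
        rw [h3, mul_zero, mul_zero, sub_zero, abs_mul, abs_of_pos (by linarith)]
        have h4 : |2 * st.vt J - st.vw J - st.vw (J + 1)| ≤ 16 * P.δ := by
          rw [abs_le]
          constructor <;> linarith
        calc P.Lt J * |2 * st.vt J - st.vw J - st.vw (J + 1)| ≤ 2 * P.δ * (16 * P.δ) :=
              mul_le_mul hl2 h4 (abs_nonneg _) (by positivity)
          _ ≤ 62 * P.δ ^ 2 := by nlinarith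
  -- the tiny edge `J + 1`
  have hk2 : |l2 P f J * (2 * st.vt (J + 1) - st.vw J - st.vw (J + 1)) +
      10 * (P.η * P.A f (J + 1))| ≤ 160 * P.δ ^ 2 ∧ 0 ≤ l2 P f J ∧ l2 P f J ≤ 2 * P.δ := by
    by_cases hfJ : f (J + 1) = true
    · have hl := P.Lt_bounds (j := J + 1) (by omega)
      have hε := P.εpos (J + 1)
      have hε' := P.ε_le (j := J + 1) (by omega)
      have hεR := P.ε_R' J
      unfold l2
      rw [if_pos hfJ]
      obtain ⟨θ, hθ, hθ', hθ''⟩ : ∃ θ, P.Lt (J + 1) = P.ε (J + 1) + P.ε (J + 1) * θ ∧ 0 ≤ θ ∧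
          θ ≤ P.e0 := by
        refine ⟨(P.Lt (J + 1) - P.ε (J + 1)) / P.ε (J + 1), by field_simp; ring,
          div_nonneg (by linarith) hε.le, ?_⟩
        rw [div_le_iff₀ hε]
        nlinarith [hl.2]
      have hl2 : P.Lt (J + 1) ≤ 2 * P.δ := by
        refine hl.2.trans ?_
        nlinarith
      refine ⟨?_, by linarith, hl2⟩
      have h1 := abs_le.1 (h.ht2 (by omega))
      have h2 : tnom (J + 1) f (J + 1) = - (R (J + 1) / 2) := by
        unfold tnom
        rw [if_pos hfJ, if_neg (by omega), if_pos rfl]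
      have h3 : P.A f (J + 1) = P.a (J + 1) := by unfold A; rw [if_pos hfJ]
      rw [h2] at h1
      rw [h3, hθ]
      obtain ⟨u, hu, hu'⟩ : ∃ u, 2 * st.vt (J + 1) - st.vw J - st.vw (J + 1) = -5 * R J + u ∧
          |u| ≤ 157 * P.δ :=
        ⟨2 * st.vt (J + 1) - st.vw J - st.vw (J + 1) + 5 * R J, by ring, by
            rw [abs_le]; constructor <;> linarith⟩
      rw [hu]
      have h4 : (P.ε (J + 1) + P.ε (J + 1) * θ) * (-5 * R J + u) + 10 * (P.η * P.a (J + 1)) =
          P.ε (J + 1) * u + (P.ε (J + 1) * θ) * (-5 * R J + u) := by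
        linear_combination (-5) * hεR
      rw [h4]
      have h5 : |P.ε (J + 1) * u| ≤ P.δ * (157 * P.δ) := by
        rw [abs_mul, abs_of_pos hε]
        exact mul_le_mul hε' hu' (abs_nonneg _) hδ0.le
      have h6 : |(P.ε (J + 1) * θ) * (-5 * R J + u)| ≤ P.δ * P.e0 * (4 * P.G) := by
        rw [abs_mul]
        refine mul_le_mul ?_ ?_ (abs_nonneg _) (by positivity)
        · rw [abs_of_nonneg (by positivity)]
          exact mul_le_mul hε' hθ'' hθ' hδ0.le
        · have := abs_le.1 hu'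
          rw [abs_le]
          constructor <;> linarith
      have h7 : P.δ * P.e0 * (4 * P.G) ≤ P.δ ^ 2 := by
        have h8 : P.δ * P.e0 * (4 * P.G) = 4 * P.δ * (P.e0 * P.G) := by ring
        rw [h8]
        nlinarith [mul_pos he0' (by linarith : 0 < P.G), sq_nonneg P.δ]
      refine (abs_add_le _ _).trans ?_
      nlinarith
    · have h3 : P.A f (J + 1) = 0 := by unfold A; rw [if_neg hfJ]
      unfold l2
      rw [if_neg hfJ, h3]
      refine ⟨?_, le_rfl, by positivity⟩
      simp only [zero_mul, mul_zero, add_zero, abs_zero]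
      positivity
  obtain ⟨hk1, hl1, hl1'⟩ := hk1
  obtain ⟨hk2, hl2, hl2'⟩ := hk2
  set D := P.Lw J + l1 P J + P.Lw (J + 1) + l2 P f J with hD
  have hD2 : 2 ≤ D := by rw [hD]; linarith
  have hD3 : D ≤ 2 + 5 * P.δ := by
    rw [hD]
    have : P.e0 ≤ P.δ / 4 := by nlinarith
    linarith
  set S := P.Lw J * st.vw J + l1 P J * st.vt J + P.Lw (J + 1) * st.vw (J + 1) +
      l2 P f J * st.vt (J + 1) with hS
  have key : 2 * (S / D) - st.vw J - st.vw (J + 1) - P.m0 f J =
      ((P.Lw J - P.Lw (J + 1)) * (st.vw J - st.vw (J + 1)) +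
      (l1 P J * (2 * st.vt J - st.vw J - st.vw (J + 1)) - 16 * (P.η * P.A f J)) +
      (l2 P f J * (2 * st.vt (J + 1) - st.vw J - st.vw (J + 1)) +
      10 * (P.η * P.A f (J + 1))) - (D - 2) * P.m0 f J) / D := by
    rw [eq_div_iff (by linarith)]
    have : S / D * D = S := div_mul_cancel₀ _ (by linarith)
    have h1 : (2 * (S / D) - st.vw J - st.vw (J + 1) - P.m0 f J) * D =
      2 * S - (st.vw J + st.vw (J + 1) + P.m0 f J) * D := by linear_combination 2 * this
    rw [h1, hS, hD]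
    unfold m0
    ring
  have hk4 : |(P.Lw J - P.Lw (J + 1)) * (st.vw J - st.vw (J + 1))| ≤ P.δ ^ 2 := by
    rw [abs_mul]
    refine le_trans ?_ heG
    refine mul_le_mul ?_ ?_ (abs_nonneg _) he0'.le
    · rw [abs_le]; constructor <;> linarith
    · rw [abs_le]; constructor <;> linarith
  have hk3 : |(D - 2) * P.m0 f J| ≤ 40 * P.δ ^ 2 := by
    rw [abs_mul]
    have h1 : |D - 2| ≤ 5 * P.δ := by rw [abs_le]; constructor <;> linarith
    have h2 : |P.m0 f J| ≤ 8 * P.δ := by rw [abs_le]; constructor <;> linarith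
    calc |D - 2| * |P.m0 f J| ≤ 5 * P.δ * (8 * P.δ) := mul_le_mul h1 h2 (abs_nonneg _) (by positivity)
      _ = 40 * P.δ ^ 2 := by ring
  have hfin : |2 * (S / D) - st.vw J - st.vw (J + 1) - P.m0 f J| ≤ 300 * P.δ ^ 2 := by
    rw [key, abs_div, abs_of_pos (by linarith : 0 < D), div_le_iff₀ (by linarith)]
    have b1 := abs_le.1 hk1
    have b2 := abs_le.1 hk2
    have b3 := abs_le.1 hk3
    have b4 := abs_le.1 hk4
    have hsq := sq_nonneg P.δ
    have b5 : 300 * P.δ ^ 2 * 2 ≤ 300 * P.δ ^ 2 * D := mul_le_mul_of_nonneg_left hD2 (by positivity)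
    rw [abs_le]
    constructor <;> linarith
  have b1 := abs_le.1 hfin
  have b2 := abs_le.1 hs
  rw [abs_le]
  constructor <;> linarith

end Par

end Pool.Agent.Helper20.Flip
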